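import Pool.Agent.Helper21.RM.StmtsE

/-!
# EIG: the Lie theorem for an isolated simple eigenvalue
-/

set_option autoImplicit false

open MT

namespace MR

theorem st_EIG (hSPC : ST_SPC) (hADS : ST_ADS) (hDRV : ST_DRV) (hGRA : ST_GRA)
    (hONE : ST_ONE) : ST_EIG := by
  intro K _ _ _ n ε ψ g c a L hn hdet hsym hsign hg hE hbrk hirr hiso hAd
  classical
  obtain ⟨P, s, C, hC, hs1, hcard, hs0, hCsk, hCg, hspec⟩ :=
    hSPC K n ε ψ g c a hn hdet hsym hsign hg hE
  set p : Matrix (Fin n) (Fin n) K := (P : Matrix (Fin n) (Fin n) K) with hp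
  set q : Matrix (Fin n) (Fin n) K :=
    ((P⁻¹ : Matrix.GeneralLinearGroup (Fin n) K) : Matrix (Fin n) (Fin n) K) with hq
  have hpq : p * q = 1 := by
    rw [hp, hq, ← Matrix.GeneralLinearGroup.coe_mul, mul_inv_cancel,
      Matrix.GeneralLinearGroup.coe_one]
  have hqp : q * p = 1 := by
    rw [hp, hq, ← Matrix.GeneralLinearGroup.coe_mul, inv_mul_cancel,
      Matrix.GeneralLinearGroup.coe_one]
  have hpq' : ∀ X : Matrix (Fin n) (Fin n) K, p * (q * X) = X := fun X => by
    rw [← Matrix.mul_assoc, hpq, Matrix.one_mul]
  have hqp' : ∀ X : Matrix (Fin n) (Fin n) K, q * (p * X) = X := fun X => by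
    rw [← Matrix.mul_assoc, hqp, Matrix.one_mul]
  have hTqp : p.transpose * q.transpose = 1 := by
    rw [← Matrix.transpose_mul, hqp, Matrix.transpose_one]
  have hTqp' : ∀ X : Matrix (Fin n) (Fin n) K, p.transpose * (q.transpose * X) = X := fun X => by
    rw [← Matrix.mul_assoc, hTqp, Matrix.one_mul]
  -- `C ^ 3 = C`
  have hC3 : C * C * C = C := by
    have h1 : Matrix.diagonal (fun j => (s j : K)) * Matrix.diagonal (fun j => (s j : K)) *
        Matrix.diagonal (fun j => (s j : K)) = Matrix.diagonal (fun j => (s j : K)) := by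
      rw [Matrix.diagonal_mul_diagonal, Matrix.diagonal_mul_diagonal]
      congr 1
      funext j
      have h2 : s j * s j * s j = s j := by
        have := abs_le.mp (hs1 j)
        obtain ⟨h3, h4⟩ := this
        have : s j = -1 ∨ s j = 0 ∨ s j = 1 := by omega
        rcases this with h | h | h <;> rw [h] <;> norm_num
      exact_mod_cast congrArg (fun z : ℤ => (z : K)) h2
    calc C * C * C = p * (Matrix.diagonal (fun j => (s j : K)) *
          Matrix.diagonal (fun j => (s j : K)) * Matrix.diagonal (fun j => (s j : K))) * q := by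
          rw [hC]
          simp only [Matrix.mul_assoc, hqp']
      _ = C := by rw [h1, hC]
  have hCL : C ∈ L := hDRV K n ψ L hdet hbrk hirr hiso C hCsk
    (hADS K n g C hCg hC3 hspec L hAd)
  -- conjugation
  let cc : Matrix (Fin n) (Fin n) K →ₗ[K] Matrix (Fin n) (Fin n) K :=
    { toFun := fun X => p * X * q
      map_add' := by
        intro X Y
        rw [Matrix.mul_add, Matrix.add_mul]
      map_smul' := by
        intro r X
        rw [Matrix.mul_smul, Matrix.smul_mul, RingHom.id_apply] }
  let a' : Submodule K (Matrix (Fin n) (Fin n) K) := L.comap cc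
  have hmem : ∀ X, X ∈ a' ↔ p * X * q ∈ L := fun X => Iff.rfl
  set ψ' : Matrix (Fin n) (Fin n) K := p.transpose * ψ * p with hψ'
  have hD : Matrix.diagonal (fun j => (s j : K)) ∈ a' := by
    rw [hmem, ← hC]
    exact hCL
  have hiso' : ∀ A ∈ a', A.transpose * ψ' + ψ' * A = 0 := by
    intro A hA
    have h1 := hiso _ ((hmem A).mp hA)
    have h2 : p.transpose * ((p * A * q).transpose * ψ + ψ * (p * A * q)) * p = 0 := by
      rw [h1, Matrix.mul_zero, Matrix.zero_mul]
    rw [Matrix.transpose_mul, Matrix.transpose_mul] at h2
    rw [← h2, hψ']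
    simp only [Matrix.mul_add, Matrix.add_mul, Matrix.mul_assoc, hTqp', hqp, Matrix.mul_one]
  have hbrk' : Brk a' := by
    intro A hA B hB
    rw [hmem] at hA hB ⊢
    have h1 := hbrk _ hA _ hB
    have h2 : p * (A * B - B * A) * q = p * A * q * (p * B * q) - p * B * q * (p * A * q) := by
      simp only [Matrix.mul_sub, Matrix.sub_mul, Matrix.mul_assoc, hqp']
    rw [h2]
    exact h1
  have hT : GrD ε ψ' s a' :=
    { unit := by
        rw [hψ', Matrix.det_mul, Matrix.det_mul, Matrix.det_transpose]
        have hpd : p.det ≠ 0 := by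
          intro h0
          have := congrArg Matrix.det hpq
          rw [Matrix.det_mul, h0, zero_mul, Matrix.det_one] at this
          exact zero_ne_one this
        exact mul_ne_zero (mul_ne_zero hpd hdet) hpd
      symm := by
        rw [hψ', Matrix.transpose_mul, Matrix.transpose_mul, Matrix.transpose_transpose, hsym,
          Matrix.smul_mul, Matrix.mul_smul, Matrix.mul_assoc]
      sign := hsign
      grad := by
        intro i j hij
        have h1 := congrFun (congrFun (hiso' _ hD) i) j
        rw [Matrix.diagonal_transpose, Matrix.add_apply, Matrix.diagonal_mul,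
          Matrix.mul_diagonal, Matrix.zero_apply] at h1
        have h2 : ((s i + s j : ℤ) : K) * ψ' i j = 0 := by
          rw [← h1]
          push_cast
          ring
        have h3 := (mul_eq_zero.mp h2).resolve_right hij
        exact_mod_cast h3
      brk := hbrk'
      iso := hiso'
      irr := by
        intro U hU
        have h1 := hirr (U.comap q.mulVecLin) (by
          intro A hA v hv
          rw [Submodule.mem_comap, Matrix.mulVecLin_apply] at hv ⊢
          have h2 : q * A * p ∈ a' := by
            rw [hmem]
            have : p * (q * A * p) * q = A := by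
              rw [Matrix.mul_assoc q, hpq', Matrix.mul_assoc, hpq, Matrix.mul_one]
            rw [this]
            exact hA
          have h3 := hU _ h2 _ hv
          rw [Matrix.mulVec_mulVec, Matrix.mul_assoc, Matrix.mul_assoc, hpq, Matrix.mul_one] at h3
          rw [Matrix.mulVec_mulVec]
          exact h3)
        rcases h1 with h1 | h1
        · left
          rw [Submodule.eq_bot_iff]
          intro u hu
          have h2 : p.mulVec u ∈ U.comap q.mulVecLin := by
            rw [Submodule.mem_comap, Matrix.mulVecLin_apply, Matrix.mulVec_mulVec, hqp,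
              Matrix.one_mulVec]
            exact hu
          rw [h1, Submodule.mem_bot] at h2
          have h3 := congrArg q.mulVec h2
          rwa [Matrix.mulVec_mulVec, hqp, Matrix.one_mulVec, Matrix.mulVec_zero] at h3
        · right
          rw [Submodule.eq_top_iff']
          intro u
          have h2 : p.mulVec u ∈ U.comap q.mulVecLin := by
            rw [h1]
            exact Submodule.mem_top
          rwa [Submodule.mem_comap, Matrix.mulVecLin_apply, Matrix.mulVec_mulVec, hqp,
            Matrix.one_mulVec] at h2
      comp := hGRA K n a' s fun A hA => hbrk' _ hD _ hA }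
  have h3 := hONE K n ε ψ' s a' hT hs1 hcard hs0
  intro A hA
  have h4 : q * A * p ∈ a' := by
    refine h3 _ ?_
    have h5 : p.transpose * (A.transpose * ψ + ψ * A) * p = 0 := by
      rw [hA, Matrix.mul_zero, Matrix.zero_mul]
    rw [← h5, hψ']
    simp only [Matrix.mul_add, Matrix.add_mul, Matrix.mul_assoc, Matrix.transpose_mul, hpq']
    congr 1
    have h6 : q.transpose * (p.transpose * (ψ * p)) = ψ * p := by
      rw [← Matrix.mul_assoc, ← Matrix.transpose_mul, hpq, Matrix.transpose_one, Matrix.one_mul]
    rw [h6]
  rw [hmem] at h4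
  have h7 : p * (q * A * p) * q = A := by
    rw [Matrix.mul_assoc q, hpq', Matrix.mul_assoc, hpq, Matrix.mul_one]
  rwa [h7] at h4

end MR
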